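import Pool.Agent.Lib.MP_af3a4a_an.P1.CHK.DATA.N15.K0
import Pool.Agent.Lib.MP_af3a4a_an.P1.CHK.DATA.N15.K1

/-! glue for 15 <= N <= 15 (generated) -/

set_option autoImplicit false
set_option maxRecDepth 100000

namespace Pool.Agent.Lib.MP_af3a4a_an.P1.CHK.DATA.N15

open BOX

theorem g0 : ChunkP 15 15 0 1024 0 101 0 2484 := ChunkP.r k0 k1
theorem g1 : ChunkP 15 15 1024 1536 64 80 1584 2484 := ChunkP.r k8 k9
theorem g2 : ChunkP 15 15 1024 1536 64 80 1536 2484 := ChunkP.R k7 g1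
theorem g3 : ChunkP 15 15 1024 1536 64 80 1488 2484 := ChunkP.R k6 g2
theorem g4 : ChunkP 15 15 1024 1536 64 80 1344 2484 := ChunkP.R k5 g3
theorem g5 : ChunkP 15 15 1024 1536 64 80 1104 2484 := ChunkP.R k4 g4
theorem g6 : ChunkP 15 15 1024 1536 64 80 0 2484 := ChunkP.R k3 g5
theorem g7 : ChunkP 15 15 1024 1536 64 96 0 2484 := ChunkP.g g6 k10
theorem g8 : ChunkP 15 15 1024 1536 64 101 0 2484 := ChunkP.g g7 k11
theorem g9 : ChunkP 15 15 1024 1536 0 101 0 2484 := ChunkP.g k2 g8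
theorem g10 : ChunkP 15 15 1536 2048 0 101 0 2484 := ChunkP.g k12 k13
theorem g11 : ChunkP 15 15 1024 2048 0 101 0 2484 := ChunkP.r g9 g10
theorem g12 : ChunkP 15 15 0 2048 0 101 0 2484 := ChunkP.r g0 g11
theorem g13 : ChunkP 15 15 2048 2560 0 101 0 2484 := ChunkP.g k14 k15
theorem g14 : ChunkP 15 15 2048 3072 0 101 0 2484 := ChunkP.r g13 k16
theorem g15 : ChunkP 15 15 2048 4096 0 101 0 2484 := ChunkP.r g14 k17
theorem g16 : ChunkP 15 15 0 4096 0 101 0 2484 := ChunkP.r g12 g15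

/-- the whole box -/
theorem allBox : ChunkP 15 15 0 4096 0 101 0 2484 := g16

theorem full {N : ℕ} (hNa : 15 ≤ N) (hNb : N ≤ 15) {z w : Fin N → ℂ} {R : ℝ} {σ : Fin N → ℂ}
    (hC : Pool.Agent.Lib.MP_af3a4a_an.P1.H80.Cfg2 N z w R σ) : ((2484 : ℕ) : ℝ) / 1024 < R := ChunkP.full allBox hNa hNb hC

end Pool.Agent.Lib.MP_af3a4a_an.P1.CHK.DATA.N15
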